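import Pool.Agent.Helper61.MI.Defs

set_option autoImplicit false

noncomputable section

namespace Pool.Agent.Helper61.MI

open MvPolynomial

/-! ### Evaluation at points and lines -/

/-- Evaluation at the chosen representative of a point. -/
def ev (p : Plane) : S →+* ℂ := eval p.rep

lemma ev_lin (p : Plane) (a : Fin 3 → ℂ) : ev p (lin a) = ∑ i, a i * p.rep i := by
  simp [ev, lin]

lemma onLine_iff (p : Plane) (a : Fin 3 → ℂ) : OnLine a p ↔ ev p (lin a) = 0 := by
  rw [ev_lin]; rfl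

lemma lin_hom (a : Fin 3 → ℂ) : (lin a).IsHomogeneous 1 :=
  IsHomogeneous.sum _ _ _ fun _ _ => isHomogeneous_C_mul_X _ _

lemma eval_smul_of_hom {g : S} {d : ℕ} (hg : g.IsHomogeneous d) (t : ℂ) (x : Fin 3 → ℂ) :
    eval (t • x) g = t ^ d * eval x g := by
  rw [eval_eq, eval_eq, Finset.mul_sum]
  refine Finset.sum_congr rfl fun m hm => ?_
  have hm' : m.degree = d := by
    by_contra h
    exact (mem_support_iff.1 hm) (hg.coeff_eq_zero h)
  have hm'' : d = ∑ i ∈ m.support, m i := hm'.symm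
  have : ∏ i ∈ m.support, (t • x) i ^ m i = t ^ d * ∏ i ∈ m.support, x i ^ m i := by
    rw [hm'', ← Finset.prod_pow_eq_pow_sum, ← Finset.prod_mul_distrib]
    exact Finset.prod_congr rfl fun _ _ => by simp [mul_pow]
  rw [this]; ring

lemma mem_idealOf {Z : Set Plane} {g : S} {d : ℕ} (hg : g.IsHomogeneous d)
    (h : ∀ p ∈ Z, ev p g = 0) : g ∈ idealOf Z := by
  rw [idealOf, mem_vanishingIdeal_iff]
  rintro x ⟨p, hp, t, rfl⟩
  have := h p hp
  rw [ev] at this
  change eval (t • p.rep) g = 0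
  rw [eval_smul_of_hom hg, this, mul_zero]

lemma exists_line (p q : Plane) (h : q ≠ p) : ∃ s : Fin 3 → ℂ, OnLine s p ∧ ¬ OnLine s q := by
  have hq : q.rep ∉ Submodule.span ℂ {p.rep} := by
    intro hmem
    obtain ⟨c, hc⟩ := Submodule.mem_span_singleton.1 hmem
    apply h
    rw [← q.mk_rep, ← p.mk_rep, Projectivization.mk_eq_mk_iff']
    exact ⟨c, hc⟩
  obtain ⟨f, hf, hf'⟩ := Submodule.exists_dual_map_eq_bot_of_notMem hq inferInstance
  have key : ∀ x : Fin 3 → ℂ, ∑ i, f (Pi.single i 1) * x i = f x := by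
    intro x
    rw [LinearMap.pi_apply_eq_sum_univ f x]
    exact Finset.sum_congr rfl fun i _ => by
      rw [smul_eq_mul, mul_comm]
      congr 2
      ext j
      simp [Pi.single_apply, eq_comm]
  refine ⟨fun i => f (Pi.single i 1), ?_, ?_⟩
  · rw [OnLine, key]
    have : f p.rep ∈ (Submodule.span ℂ {p.rep}).map f :=
      Submodule.mem_map_of_mem (Submodule.mem_span_singleton_self _)
    rw [hf'] at this
    simpa using this
  · rw [OnLine, key]; exact hf

/-- A linear form which does not vanish at a given point. -/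
lemma exists_off (q : Plane) : ∃ s : Fin 3 → ℂ, ¬ OnLine s q := by
  have h := q.rep_nonzero
  obtain ⟨i, hi⟩ : ∃ i, q.rep i ≠ 0 := by
    by_contra hcon
    push Not at hcon
    exact h (funext hcon)
  refine ⟨Pi.single i 1, ?_⟩
  rw [OnLine, Finset.sum_eq_single i]
  · simpa using hi
  · intro j _ hj; simp [hj]
  · simp

/-! ### Interpolation -/

/-- A form of degree `d` which vanishes on the finite set `T` and on the lines with indices in
`L`, but not at `y`. -/
lemma exists_form (ℓ : Fin 3 → Fin 3 → ℂ) (y : Plane) (T : Finset Plane) (hy : y ∉ T)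
    (L : Finset (Fin 3)) (hL : ∀ j ∈ L, ¬ OnLine (ℓ j) y) (d : ℕ) (hd : T.card + L.card ≤ d) :
    ∃ B : S, B.IsHomogeneous d ∧ ev y B ≠ 0 ∧ (∀ z ∈ T, ev z B = 0) ∧
      ∀ j ∈ L, ∀ z, OnLine (ℓ j) z → ev z B = 0 := by
  have hs : ∀ z : Plane, ∃ s : Fin 3 → ℂ, ¬ OnLine s y ∧ (z ∈ T → OnLine s z) := by
    intro z
    by_cases hz : z ∈ T
    · obtain ⟨s, h1, h2⟩ := exists_line z y (fun h => hy (h ▸ hz))
      exact ⟨s, h2, fun _ => h1⟩
    · obtain ⟨s, h2⟩ := exists_off y
      exact ⟨s, h2, fun h => absurd h hz⟩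
  choose s hs1 hs2 using hs
  obtain ⟨m, hm⟩ := exists_off y
  refine ⟨(∏ z ∈ T, lin (s z)) * (∏ j ∈ L, lin (ℓ j)) * lin m ^ (d - (T.card + L.card)),
    ?_, ?_, ?_, ?_⟩
  · have h1 : (∏ z ∈ T, lin (s z)).IsHomogeneous (∑ _z ∈ T, 1) :=
      IsHomogeneous.prod T (fun z => lin (s z)) (fun _ => 1) fun z _ => lin_hom _
    have h2 : (∏ j ∈ L, lin (ℓ j)).IsHomogeneous (∑ _j ∈ L, 1) :=
      IsHomogeneous.prod L (fun j => lin (ℓ j)) (fun _ => 1) fun z _ => lin_hom _
    have h3 : (lin m ^ (d - (T.card + L.card))).IsHomogeneous (1 * (d - (T.card + L.card))) :=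
      (lin_hom m).pow _
    have h := (h1.mul h2).mul h3
    convert h using 1
    simp only [Finset.sum_const, smul_eq_mul, mul_one, one_mul]
    omega
  · rw [map_mul, map_mul, map_prod, map_prod, map_pow]
    refine mul_ne_zero (mul_ne_zero ?_ ?_) (pow_ne_zero _ ?_)
    · exact Finset.prod_ne_zero_iff.2 fun z _ => fun h => hs1 z ((onLine_iff _ _).2 h)
    · exact Finset.prod_ne_zero_iff.2 fun j hj => fun h => hL j hj ((onLine_iff _ _).2 h)
    · exact fun h => hm ((onLine_iff _ _).2 h)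
  · intro z hz
    rw [map_mul, map_mul, map_prod, Finset.prod_eq_zero hz ((onLine_iff _ _).1 (hs2 z hz)),
      zero_mul, zero_mul]
  · intro j hj z hz
    rw [map_mul, map_mul, map_prod, map_prod, Finset.prod_eq_zero hj ((onLine_iff _ _).1 hz),
      mul_zero, zero_mul]

/-- Interpolation of arbitrary values by forms of degree `d`. -/
lemma interp (Y : Finset Plane) (d : ℕ)
    (h : ∀ y ∈ Y, ∃ B : S, B.IsHomogeneous d ∧ ev y B ≠ 0 ∧ ∀ z ∈ Y, z ≠ y → ev z B = 0)
    (β : Plane → ℂ) : ∃ G : S, G.IsHomogeneous d ∧ ∀ y ∈ Y, ev y G = β y := by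
  classical
  have h' : ∀ y : Plane, ∃ B : S, B.IsHomogeneous d ∧ (y ∈ Y → ev y B ≠ 0 ∧
      ∀ z ∈ Y, z ≠ y → ev z B = 0) := by
    intro y
    by_cases hy : y ∈ Y
    · obtain ⟨B, h1, h2, h3⟩ := h y hy
      exact ⟨B, h1, fun _ => ⟨h2, h3⟩⟩
    · exact ⟨0, isHomogeneous_zero _ _ _, fun h => absurd h hy⟩
  choose B hB1 hB2 using h'
  refine ⟨∑ y ∈ Y, C (β y / ev y (B y)) * B y, IsHomogeneous.sum _ _ _ fun y _ =>
    (hB1 y).C_mul _, fun y hy => ?_⟩
  rw [map_sum, Finset.sum_eq_single y]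
  · rw [map_mul]
    have : ev y (C (β y / ev y (B y))) = β y / ev y (B y) := by simp [ev]
    rw [this, div_mul_cancel₀ _ (hB2 y hy).1]
  · intro z hz hne
    rw [map_mul, (hB2 z hz).2 y hy (Ne.symm hne), mul_zero]
  · intro h; exact absurd hy h

/-- Interpolation on the points which are on none of the lines with index `≤ i`. -/
lemma interp_config (C : Config) (i : Fin 3) (β : Plane → ℂ) :
    ∃ G : S, G.IsHomogeneous ((C.Z i).card - 1) ∧ ev C.P G = β C.P ∧
      ∀ j, i < j → ∀ y ∈ C.Z j, ev y G = β y := by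
  classical
  have num1 : ∀ i : Fin 3, (∅ : Finset Plane).card + (Finset.univ.filter (i < ·)).card ≤
      ![10, 7, 4] i - 1 := by
    simp only [Finset.card_empty]
    decide
  have num2 : ∀ i j : Fin 3, i < j →
      (![10, 7, 4] j - 1) + 1 + ((Finset.univ.filter (i < ·)).erase j).card ≤
        ![10, 7, 4] i - 1 := by
    decide
  have hB : ∀ y ∈ insert C.P ((Finset.univ.filter (i < ·)).biUnion C.Z), ∃ B : S,
      B.IsHomogeneous ((C.Z i).card - 1) ∧ ev y B ≠ 0 ∧
      ∀ z ∈ insert C.P ((Finset.univ.filter (i < ·)).biUnion C.Z), z ≠ y → ev z B = 0 := by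
    intro y hy
    rcases Finset.mem_insert.1 hy with rfl | hy
    · obtain ⟨B, h1, h2, _, h4⟩ := exists_form C.ℓ C.P ∅ (by simp)
        (Finset.univ.filter (i < ·)) (fun j _ => C.hP j) ((C.Z i).card - 1)
        (by rw [C.card i]; exact num1 i)
      refine ⟨B, h1, h2, fun z hz hne => ?_⟩
      rcases Finset.mem_insert.1 hz with rfl | hz
      · exact absurd rfl hne
      · obtain ⟨j, hj, hz⟩ := Finset.mem_biUnion.1 hz
        exact h4 j hj z ((C.mem j z hz j).2 rfl)
    · obtain ⟨j, hj, hy⟩ := Finset.mem_biUnion.1 hy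
      have hPj : C.P ∉ C.Z j := fun h => C.hP j ((C.mem j _ h j).2 rfl)
      have hij : i < j := by simpa using hj
      obtain ⟨B, h1, h2, h3, h4⟩ := exists_form C.ℓ y (insert C.P ((C.Z j).erase y))
        (by
          intro h
          rcases Finset.mem_insert.1 h with h | h
          · exact hPj (h ▸ hy)
          · exact absurd rfl (Finset.ne_of_mem_erase h))
        ((Finset.univ.filter (i < ·)).erase j)
        (fun k hk h => absurd ((C.mem j y hy k).1 h) (Finset.ne_of_mem_erase hk))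
        ((C.Z i).card - 1)
        (by
          rw [Finset.card_insert_of_notMem
            (fun h => hPj (Finset.mem_of_mem_erase h)), Finset.card_erase_of_mem hy,
            C.card i, C.card j]
          exact num2 i j hij)
      refine ⟨B, h1, h2, fun z hz hne => ?_⟩
      rcases Finset.mem_insert.1 hz with rfl | hz
      · exact h3 _ (Finset.mem_insert_self _ _)
      · obtain ⟨k, hk, hz⟩ := Finset.mem_biUnion.1 hz
        by_cases hkj : k = j
        · subst hkj
          exact h3 _ (Finset.mem_insert_of_mem (Finset.mem_erase.2 ⟨hne, hz⟩))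
        · exact h4 k (Finset.mem_erase.2 ⟨hkj, hk⟩) z ((C.mem k z hz k).2 rfl)
  obtain ⟨G, hG1, hG2⟩ := interp _ _ hB β
  refine ⟨G, hG1, hG2 _ (Finset.mem_insert_self _ _), fun j hj y hy => hG2 _ ?_⟩
  exact Finset.mem_insert_of_mem (Finset.mem_biUnion.2 ⟨j, by simpa using hj, hy⟩)

/-- Correction of a form of degree `|Z i|` by a multiple of `lin (ℓ i)`. -/
lemma correct (C : Config) (i : Fin 3) (A : S) :
    ∃ G : S, G.IsHomogeneous ((C.Z i).card - 1) ∧ ev C.P (A + lin (C.ℓ i) * G) = 0 ∧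
      ∀ j, i < j → ∀ y ∈ C.Z j, ev y (A + lin (C.ℓ i) * G) = 0 := by
  obtain ⟨G, h1, h2, h3⟩ := interp_config C i (fun y => - ev y A / ev y (lin (C.ℓ i)))
  refine ⟨G, h1, ?_, ?_⟩
  · have h := mt (onLine_iff _ _).2 (C.hP i)
    rw [map_add, map_mul, h2, mul_div_cancel₀ _ h, add_neg_cancel]
  · intro j hj y hy
    have h := mt (onLine_iff _ _).2 (mt (C.mem j y hy i).1 (ne_of_lt hj))
    rw [map_add, map_mul, h3 j hj y hy, mul_div_cancel₀ _ h, add_neg_cancel]

/-! ### Values -/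

/-- A natural number as a value. -/
def cz (n : ℕ) : WithTop ℤ := ((n : ℤ) : WithTop ℤ)

lemma cz_add (m n : ℕ) : cz m + cz n = cz (m + n) := by
  simp only [cz]; push_cast; rfl

lemma cz_zero : cz 0 = 0 := by simp [cz]

lemma cz_nsmul (m n : ℕ) : m • cz n = cz (m * n) := by
  induction m with
  | zero => simp [cz_zero]
  | succ k ih => rw [succ_nsmul, ih, cz_add, Nat.succ_mul]

lemma cz_le {m n : ℕ} (h : m ≤ n) : cz m ≤ cz n := by
  simp only [cz]; exact_mod_cast h

lemma cz_lt {m n : ℕ} (h : m < n) : cz m < cz n := by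
  simp only [cz]; exact_mod_cast h

section Val

variable (v : AddValuation K (WithTop ℤ))

/-- The value of a polynomial. -/
def V (f : S) : WithTop ℤ := v (algebraMap S K f)

lemma V_mul (f g : S) : V v (f * g) = V v f + V v g := by
  simp [V]

lemma V_one : V v 1 = 0 := by simp [V]

lemma V_pow (f : S) (n : ℕ) : V v (f ^ n) = n • V v f := by
  simp [V]

lemma V_prod {ι : Type} (T : Finset ι) (f : ι → S) (t : ℕ) (h : ∀ i ∈ T, V v (f i) = cz t) :
    V v (∏ i ∈ T, f i) = cz (T.card * t) := by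
  classical
  induction T using Finset.induction_on with
  | empty => simp [V_one, cz_zero]
  | insert a T ha ih =>
    rw [Finset.prod_insert ha, V_mul, h a (Finset.mem_insert_self _ _),
      ih fun i hi => h i (Finset.mem_insert_of_mem hi), cz_add, Finset.card_insert_of_notMem ha]
    congr 1
    ring

variable (hv : ∀ f : S, 0 ≤ v (algebraMap S K f)) (t : ℕ)
  (ht : ∀ i, ((t : ℤ) : WithTop ℤ) ≤ v (algebraMap S K (X i)))

include hv ht

lemma V_monomial (m : Fin 3 →₀ ℕ) (c : ℂ) : cz (m.degree * t) ≤ V v (monomial m c) := by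
  rw [monomial_eq, V_mul, Finsupp.prod_fintype _ _ (by simp), Fin.prod_univ_three, V_mul, V_mul,
    V_pow, V_pow, V_pow]
  have h : cz (m.degree * t) = 0 + (m 0 • cz t + m 1 • cz t + m 2 • cz t) := by
    rw [cz_nsmul, cz_nsmul, cz_nsmul, cz_add, cz_add, zero_add]
    congr 1
    have : m.degree = m 0 + m 1 + m 2 := by
      rw [← Fin.sum_univ_three (fun i => m i)]
      exact Finsupp.sum_fintype m (fun _ a => a) (by simp)
    rw [this]
    ring
  rw [h]
  exact add_le_add (hv _) (add_le_add (add_le_add (nsmul_le_nsmul_right (ht 0) _)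
    (nsmul_le_nsmul_right (ht 1) _)) (nsmul_le_nsmul_right (ht 2) _))

lemma form_le {g : S} {d : ℕ} (hg : g.IsHomogeneous d) : cz (d * t) ≤ V v g := by
  rw [V, ← support_sum_monomial_coeff g, map_sum]
  refine AddValuation.map_le_sum v fun m hm => ?_
  have hm' : m.degree = d := by
    by_contra h
    exact (mem_support_iff.1 hm) (hg.coeff_eq_zero h)
  rw [← hm']
  exact V_monomial v hv t ht m _

end Val

/-! ### Vanishing at the points of a configuration -/

/-- `g` vanishes at `P` and at the points of `Z j` for all `j ≥ k`. -/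
def Van (C : Config) (k : ℕ) (g : S) : Prop :=
  ev C.P g = 0 ∧ ∀ j : Fin 3, k ≤ (j : ℕ) → ∀ y ∈ C.Z j, ev y g = 0

lemma Van.mem {C : Config} {g : S} (h : Van C 0 g) {d : ℕ} (hg : g.IsHomogeneous d) :
    g ∈ idealOf C.pts := by
  refine mem_idealOf hg fun p hp => ?_
  rcases hp with rfl | hp
  · exact h.1
  · obtain ⟨i, hi⟩ := Set.mem_iUnion.1 hp
    exact h.2 i (Nat.zero_le _) p hi

lemma Van.mul_left {C : Config} {g : S} {k : ℕ} (h : Van C k g) (f : S) : Van C k (f * g) :=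
  ⟨by rw [map_mul, h.1, mul_zero], fun j hj y hy => by rw [map_mul, h.2 j hj y hy, mul_zero]⟩

lemma Van.mul_right {C : Config} {g : S} {k : ℕ} (h : Van C k g) (f : S) : Van C k (g * f) :=
  ⟨by rw [map_mul, h.1, zero_mul], fun j hj y hy => by rw [map_mul, h.2 j hj y hy, zero_mul]⟩

lemma Van.line {C : Config} {g : S} {k : Fin 3} (h : Van C ((k : ℕ) + 1) g) :
    Van C (k : ℕ) (lin (C.ℓ k) * g) := by
  refine ⟨by rw [map_mul, h.1, mul_zero], fun j hj y hy => ?_⟩
  rcases Nat.eq_or_lt_of_le hj with hj | hj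
  · have : j = k := Fin.ext hj.symm
    subst this
    rw [map_mul, (onLine_iff _ _).1 ((C.mem j y hy j).2 rfl), zero_mul]
  · rw [map_mul, h.2 j hj y hy, mul_zero]

lemma van_of_P {C : Config} {g : S} (h : ev C.P g = 0) : Van C 3 g :=
  ⟨h, fun j hj => absurd j.2 (by omega)⟩

/-- The form obtained with `correct`. -/
lemma correct' (C : Config) (v : AddValuation K (WithTop ℤ))
    (hv : ∀ f : S, 0 ≤ v (algebraMap S K f)) (t : ℕ)
    (ht : ∀ i, ((t : ℤ) : WithTop ℤ) ≤ v (algebraMap S K (X i)))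
    (i : Fin 3) (a b : ℕ) (hab : b < a) (ha : V v (lin (C.ℓ i)) = cz (t + a)) (A : S)
    (hA : A.IsHomogeneous (C.Z i).card) (hAV : V v A = cz ((C.Z i).card * t + b))
    (hA0 : ∀ y ∈ C.Z i, ev y A = 0) :
    ∃ Q : S, Q.IsHomogeneous (C.Z i).card ∧ Van C i Q ∧
      V v Q = cz ((C.Z i).card * t + b) := by
  obtain ⟨G, hG, h1, h2⟩ := correct C i A
  have hpos : 1 ≤ (C.Z i).card := by
    have num : ∀ i : Fin 3, 1 ≤ ![10, 7, 4] i := by decide
    rw [C.card i]; exact num i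
  refine ⟨A + lin (C.ℓ i) * G, ?_, ⟨h1, fun j hj y hy => ?_⟩, ?_⟩
  · refine hA.add ?_
    have := (lin_hom (C.ℓ i)).mul hG
    rwa [Nat.add_sub_cancel' hpos] at this
  · rcases Nat.eq_or_lt_of_le hj with hj | hj
    · have : j = i := Fin.ext hj.symm
      subst this
      rw [map_add, map_mul, (onLine_iff _ _).1 ((C.mem j y hy j).2 rfl), zero_mul, add_zero]
      exact hA0 y hy
    · exact h2 j hj y hy
  · rw [V, map_add]
    rw [AddValuation.map_add_eq_of_lt_left]
    · exact hAV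
    · change V v A < V v (lin (C.ℓ i) * G)
      rw [hAV, V_mul, ha]
      calc cz ((C.Z i).card * t + b) < cz ((t + a) + ((C.Z i).card - 1) * t) := by
            refine cz_lt ?_
            obtain ⟨k, hk⟩ := Nat.exists_eq_add_of_le' hpos
            rw [hk, Nat.add_sub_cancel, Nat.succ_mul]
            omega
        _ = cz (t + a) + cz (((C.Z i).card - 1) * t) := (cz_add _ _).symm
        _ ≤ _ := add_le_add le_rfl (form_le v hv t ht hG)

lemma prod_hom {ι : Type} (T : Finset ι) (s : ι → Fin 3 → ℂ) :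
    (∏ z ∈ T, lin (s z)).IsHomogeneous T.card := by
  have h1 : (∏ z ∈ T, lin (s z)).IsHomogeneous (∑ _z ∈ T, 1) :=
    IsHomogeneous.prod T (fun z => lin (s z)) (fun _ => 1) fun z _ => lin_hom _
  simpa using h1

lemma van_lines (C : Config) {g : S} (h : ev C.P g = 0) :
    Van C 0 (lin (C.ℓ 0) * (lin (C.ℓ 1) * (lin (C.ℓ 2) * g))) :=
  Van.line (k := 0) (Van.line (k := 1) (Van.line (k := 2) (van_of_P h)))

lemma hom_lines (C : Config) {g : S} (h : g.IsHomogeneous 1) :
    (lin (C.ℓ 0) * (lin (C.ℓ 1) * (lin (C.ℓ 2) * g))).IsHomogeneous 4 :=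
  (lin_hom _).mul ((lin_hom _).mul ((lin_hom _).mul h))

/-- The centre of `v` is the point `P`. -/
theorem elem_P (C : Config) (v : AddValuation K (WithTop ℤ)) (t : ℕ)
    (hc : ∀ s : Fin 3 → ℂ, ¬ OnLine s C.P → v (algebraMap S K (lin s)) = ((t : ℤ) : WithTop ℤ))
    (b : ℕ) (s : Fin 3 → ℂ) (hs : OnLine s C.P)
    (hb : v (algebraMap S K (lin s)) = (((t + b : ℕ) : ℤ) : WithTop ℤ)) :
    ∃ g ∈ idealOf C.pts, v (algebraMap S K g) ≤ (((4 * t + b : ℕ) : ℤ) : WithTop ℤ) := by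
  refine ⟨_, (van_lines C ((onLine_iff _ _).1 hs)).mem (hom_lines C (lin_hom s)), ?_⟩
  change V v _ ≤ cz _
  have h : ∀ j, V v (lin (C.ℓ j)) = cz t := fun j => hc _ (C.hP j)
  rw [V_mul, V_mul, V_mul, h, h, h, show V v (lin s) = cz (t + b) from hb, cz_add, cz_add, cz_add]
  exact cz_le (by omega)

/-- The centre of `v` is one of the points `z` on the `i`-th line. -/
theorem elem_line (C : Config) (v : AddValuation K (WithTop ℤ))
    (hv : ∀ f : S, 0 ≤ v (algebraMap S K f)) (t : ℕ)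
    (ht : ∀ i, ((t : ℤ) : WithTop ℤ) ≤ v (algebraMap S K (X i)))
    (i : Fin 3) (z : Plane) (hz : z ∈ C.Z i)
    (hc : ∀ s : Fin 3 → ℂ, ¬ OnLine s z → v (algebraMap S K (lin s)) = ((t : ℤ) : WithTop ℤ))
    (a b : ℕ) (ha : v (algebraMap S K (lin (C.ℓ i))) = (((t + a : ℕ) : ℤ) : WithTop ℤ))
    (s : Fin 3 → ℂ) (hs : OnLine s z)
    (hb : v (algebraMap S K (lin s)) = (((t + b : ℕ) : ℤ) : WithTop ℤ)) :
    (∃ g ∈ idealOf C.pts, v (algebraMap S K g) ≤ (((4 * t + a : ℕ) : ℤ) : WithTop ℤ)) ∧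
    (b < a → ∃ g ∈ idealOf C.pts,
      v (algebraMap S K g) ≤ (((![10, 8, 6] i * t + b : ℕ) : ℤ) : WithTop ℤ)) := by
  classical
  have hPz : z ≠ C.P := fun h => C.hP i (h ▸ (C.mem i z hz i).2 rfl)
  have hj : ∀ j, j ≠ i → V v (lin (C.ℓ j)) = cz t :=
    fun j hj => hc _ (mt (C.mem i z hz j).1 hj)
  have ha' : V v (lin (C.ℓ i)) = cz (t + a) := ha
  constructor
  · obtain ⟨m, hm1, hm2⟩ := exists_line C.P z hPz
    refine ⟨_, (van_lines C ((onLine_iff _ _).1 hm1)).mem (hom_lines C (lin_hom m)), ?_⟩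
    change V v _ ≤ cz _
    rw [V_mul, V_mul, V_mul, show V v (lin m) = cz t from hc _ hm2]
    fin_cases i
    · rw [show V v (lin (C.ℓ 0)) = cz (t + a) from ha', hj 1 (by decide), hj 2 (by decide),
        cz_add, cz_add, cz_add]
      exact cz_le (by omega)
    · rw [show V v (lin (C.ℓ 1)) = cz (t + a) from ha', hj 0 (by decide), hj 2 (by decide),
        cz_add, cz_add, cz_add]
      exact cz_le (by omega)
    · rw [show V v (lin (C.ℓ 2)) = cz (t + a) from ha', hj 0 (by decide), hj 1 (by decide),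
        cz_add, cz_add, cz_add]
      exact cz_le (by omega)
  · intro hab
    have hex : ∀ y : Plane, ∃ s : Fin 3 → ℂ, y ≠ z → OnLine s y ∧ ¬ OnLine s z := by
      intro y
      by_cases hy : y = z
      · exact ⟨0, fun h => absurd hy h⟩
      · obtain ⟨s, h1, h2⟩ := exists_line y z (Ne.symm hy)
        exact ⟨s, fun _ => ⟨h1, h2⟩⟩
    choose r hr using hex
    have hcard := Finset.card_erase_add_one hz
    obtain ⟨Q, hQ1, hQ2, hQ3⟩ := correct' C v hv t ht i a b hab ha'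
      ((∏ y ∈ (C.Z i).erase z, lin (r y)) * lin s)
      (by rw [← hcard]; exact (prod_hom _ _).mul (lin_hom s))
      (by
        rw [V_mul, V_prod v _ _ t fun y hy => hc _ (hr y (Finset.ne_of_mem_erase hy)).2,
          show V v (lin s) = cz (t + b) from hb, cz_add, ← hcard]
        congr 1
        ring)
      (by
        intro y hy
        rw [map_mul]
        by_cases hyz : y = z
        · rw [hyz, (onLine_iff _ _).1 hs, mul_zero]
        · rw [map_prod, Finset.prod_eq_zero (Finset.mem_erase.2 ⟨hyz, hy⟩)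
            ((onLine_iff _ _).1 (hr y hyz).1), zero_mul])
    fin_cases i
    · refine ⟨Q, hQ2.mem hQ1, ?_⟩
      change V v _ ≤ cz _
      rw [hQ3, C.card]
      exact cz_le (by simp)
    · refine ⟨lin (C.ℓ 0) * Q, (Van.line (k := 0) hQ2).mem ((lin_hom _).mul hQ1), ?_⟩
      change V v _ ≤ cz _
      rw [V_mul, hj 0 (by decide), hQ3, C.card, cz_add]
      exact cz_le (by simp; omega)
    · refine ⟨lin (C.ℓ 0) * (lin (C.ℓ 1) * Q), (Van.line (k := 0) (Van.line (k := 1) hQ2)).mem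
        ((lin_hom _).mul ((lin_hom _).mul hQ1)), ?_⟩
      change V v _ ≤ cz _
      rw [V_mul, V_mul, hj 0 (by decide), hj 1 (by decide), hQ3, C.card, cz_add, cz_add]
      exact cz_le (by simp; omega)

/-- One step of the recursion for `elem_generic`. -/
lemma step (C : Config) (v : AddValuation K (WithTop ℤ))
    (hv : ∀ f : S, 0 ≤ v (algebraMap S K f)) (t : ℕ)
    (ht : ∀ i, ((t : ℤ) : WithTop ℤ) ≤ v (algebraMap S K (X i)))
    (r : Plane → Fin 3 → ℂ) (hr : ∀ p ∈ C.pts, OnLine (r p) p ∧ V v (lin (r p)) = cz t)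
    (i : Fin 3) (a : ℕ) (ha : V v (lin (C.ℓ i)) = cz (t + a))
    (d : ℕ) (hd : d + 3 = (C.Z i).card) (W : S) (hW : W.IsHomogeneous d)
    (hW' : Van C ((i : ℕ) + 1) W) (hWV : V v W ≤ cz (d * t)) :
    ∃ Q : S, Q.IsHomogeneous (C.Z i).card ∧ Van C i Q ∧ V v Q ≤ cz ((C.Z i).card * t) := by
  have hmem : ∀ y ∈ C.Z i, y ∈ C.pts := fun y hy => Or.inr (Set.mem_iUnion.2 ⟨i, hy⟩)
  rcases Nat.eq_zero_or_pos a with rfl | hpos
  · have hP := hr C.P (Or.inl rfl)
    refine ⟨lin (C.ℓ i) * W * lin (r C.P) ^ 2, ?_, ?_, ?_⟩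
    · have := ((lin_hom (C.ℓ i)).mul hW).mul ((lin_hom (r C.P)).pow 2)
      convert this using 1
      omega
    · exact (Van.line hW').mul_right _
    · rw [V_mul, V_mul, V_pow, hP.2, ha, cz_nsmul]
      calc cz (t + 0) + V v W + cz (2 * t) ≤ cz (t + 0) + cz (d * t) + cz (2 * t) :=
            add_le_add (add_le_add le_rfl hWV) le_rfl
        _ = cz ((C.Z i).card * t) := by
            rw [cz_add, cz_add, ← hd]
            congr 1
            ring
  · obtain ⟨Q, hQ1, hQ2, hQ3⟩ := correct' C v hv t ht i a 0 hpos ha (∏ y ∈ C.Z i, lin (r y))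
      (prod_hom _ _)
      (V_prod v _ _ t fun y hy => (hr y (hmem y hy)).2)
      (fun y hy => by
        rw [map_prod]
        exact Finset.prod_eq_zero hy ((onLine_iff _ _).1 (hr y (hmem y hy)).1))
    exact ⟨Q, hQ1, hQ2, hQ3.le⟩

/-- The centre of `v` is none of the 22 points. -/
theorem elem_generic (C : Config) (v : AddValuation K (WithTop ℤ))
    (hv : ∀ f : S, 0 ≤ v (algebraMap S K f)) (t : ℕ)
    (ht : ∀ i, ((t : ℤ) : WithTop ℤ) ≤ v (algebraMap S K (X i)))
    (hc : ∀ p ∈ C.pts, ∃ s : Fin 3 → ℂ, OnLine s p ∧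
      v (algebraMap S K (lin s)) = ((t : ℤ) : WithTop ℤ))
    (a : Fin 3 → ℕ)
    (ha : ∀ i, v (algebraMap S K (lin (C.ℓ i))) = (((t + a i : ℕ) : ℤ) : WithTop ℤ)) :
    (∃ g ∈ idealOf C.pts,
      v (algebraMap S K g) ≤ (((4 * t + a 0 + a 1 + a 2 : ℕ) : ℤ) : WithTop ℤ)) ∧
    (∃ g ∈ idealOf C.pts,
      v (algebraMap S K g) ≤ (((6 * t + a 0 + a 1 : ℕ) : ℤ) : WithTop ℤ)) ∧
    (∃ g ∈ idealOf C.pts, v (algebraMap S K g) ≤ (((8 * t + a 0 : ℕ) : ℤ) : WithTop ℤ)) ∧
    (∃ g ∈ idealOf C.pts, v (algebraMap S K g) ≤ (((10 * t : ℕ) : ℤ) : WithTop ℤ)) := by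
  have ha' : ∀ i, V v (lin (C.ℓ i)) = cz (t + a i) := ha
  have hex : ∀ p : Plane, ∃ s : Fin 3 → ℂ, p ∈ C.pts → OnLine s p ∧ V v (lin s) = cz t := by
    intro p
    by_cases hp : p ∈ C.pts
    · obtain ⟨s, h⟩ := hc p hp
      exact ⟨s, fun _ => h⟩
    · exact ⟨0, fun h => absurd h hp⟩
  choose r hr using hex
  have hP := hr C.P (Or.inl rfl)
  have hP0 : ev C.P (lin (r C.P)) = 0 := (onLine_iff _ _).1 hP.1
  obtain ⟨W2, h21, h22, h23⟩ := step C v hv t ht r hr 2 (a 2) (ha' 2) 1 (by rw [C.card]; rfl)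
    (lin (r C.P)) (lin_hom _) (van_of_P hP0) (by rw [hP.2, one_mul])
  obtain ⟨W1, h11, h12, h13⟩ := step C v hv t ht r hr 1 (a 1) (ha' 1) 4 (by rw [C.card]; rfl)
    W2 (by rw [C.card] at h21; exact h21) h22 (by rw [C.card] at h23; exact h23)
  obtain ⟨W0, h01, h02, h03⟩ := step C v hv t ht r hr 0 (a 0) (ha' 0) 7 (by rw [C.card]; rfl)
    W1 (by rw [C.card] at h11; exact h11) h12 (by rw [C.card] at h13; exact h13)
  refine ⟨⟨_, (van_lines C hP0).mem (hom_lines C (lin_hom _)), ?_⟩,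
    ⟨lin (C.ℓ 0) * (lin (C.ℓ 1) * W2), (Van.line (k := 0) (Van.line (k := 1) h22)).mem
        ((lin_hom _).mul ((lin_hom _).mul h21)), ?_⟩,
    ⟨lin (C.ℓ 0) * W1, (Van.line (k := 0) h12).mem ((lin_hom _).mul h11), ?_⟩,
    ⟨W0, h02.mem h01, ?_⟩⟩
  · change V v _ ≤ cz _
    rw [V_mul, V_mul, V_mul, ha', ha', ha', hP.2, cz_add, cz_add, cz_add]
    exact cz_le (by omega)
  · change V v _ ≤ cz _
    rw [V_mul, V_mul, ha', ha']
    rw [C.card] at h23
    refine (add_le_add le_rfl (add_le_add le_rfl h23)).trans ?_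
    rw [cz_add, cz_add]
    exact cz_le (by simp; omega)
  · change V v _ ≤ cz _
    rw [V_mul, ha']
    rw [C.card] at h13
    refine (add_le_add le_rfl h13).trans ?_
    rw [cz_add]
    exact cz_le (by simp; omega)
  · change V v _ ≤ cz _
    rw [C.card] at h03
    exact h03

end Pool.Agent.Helper61.MI
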